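import Pool.Agent.H57.EQD.Uv
import Pool.Agent.H50.EQ.RED

/-!
# The reduction to the family template
-/

set_option autoImplicit false

namespace Pool.Agent.H50.EQD

open Pool.Agent.H1.NP Pool.Agent.H1.PNP
open Pool.Agent.H68.OQP hiding eN eE
open Pool.Agent.H68.NPH hiding prs eN
open Function
open Pool.Agent.H68.BP (ph cV cC eE eN eZ code code_eq CSP csp_code csp_true code_of_cV ph_vals
  strOf polyOn_numsR lgF Sig Str IsHom)
open Pool.Agent.H68.BT (Wg Cv Corr rowG rowG_length rowG_map rowG_mem rowG_getD csp_nil)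
open Pool.Agent.H53.GC
open Pool.Agent.H57.EQ (Tour TyInv Uni)
open Pool.Agent.H57.EQD
open Pool.Agent.H50.EQ (rT cvT strOn_corr prN prN_lt polyOn_red red_code red_bad rw' strOf_rows)

theorem hom_iff {σ : Sig} {M n : ℕ} {Y : Type}
    (R : (s : Option (Fin σ.m)) → (Fin (arP σ M s) × Fin (arP σ M s) → Y) → Prop)
    {Ls L' : List (List ℕ)} (hL' : ∀ c, c ∈ L' ↔ ∃ (s : Option (Fin σ.m))
      (y : Fin (arP σ M s) → Fin n), relP (strOf σ n Ls) M s y ∧ c = rw' σ M n s y) :
    (∃ q : Fin n → Fin n → Y,
      ∀ (s : Option (Fin σ.m)) (y : Fin (arP σ M s) → Fin n), relP (strOf σ n Ls) M s y →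
        R s (fun e => q (y e.1) (y e.2))) ↔
    ∃ f : Fin (n * n) → Y,
      IsHom (strOf (sigOf (Option (Fin σ.m)) (fun s => Fin (arP σ M s) × Fin (arP σ M s)))
        (n * n) L') (strOn R) f := by
  have hT : Corr (cvT σ M) (fun s (q : (rT σ M).Ar s → Y) => R s q) (strOn R) := strOn_corr _
  constructor
  · rintro ⟨q, hq⟩
    refine ⟨fun z => q (finProdFinEquiv.symm z).1 (finProdFinEquiv.symm z).2, ?_⟩
    intro l x hx
    obtain ⟨s, rfl⟩ := (cvT σ M).e.surjective l
    have e1 : x = (x ∘ (cvT σ M).a s) ∘ ((cvT σ M).a s).symm := by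
      funext i
      simp
    rw [e1] at hx
    obtain ⟨y, hr, he⟩ := (strOf_rows hL' s _).1 hx
    refine (hT s _).2 ?_
    have e3 : ((fun z => q (finProdFinEquiv.symm z).1 (finProdFinEquiv.symm z).2) ∘ x) ∘
        (cvT σ M).a s = fun e => q (y e.1) (y e.2) := by
      funext e
      have e2 : x ((cvT σ M).a s e) = finProdFinEquiv (y e.1, y e.2) := by
        apply Fin.ext
        rw [finProdFinEquiv_apply_val]
        exact (he e).symm
      simp only [comp_apply]
      rw [e2, Equiv.symm_apply_apply]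
    have e4 := hq s y hr
    rw [← e3] at e4
    exact e4
  · rintro ⟨f, hf⟩
    refine ⟨fun i j => f (finProdFinEquiv (i, j)), ?_⟩
    intro s y hr
    have h1 := (strOf_rows hL' s
      (fun p => ⟨prN n (fun a => (y a : ℕ)) p, prN_lt (fun a => (y a).2) p⟩)).2
        ⟨y, hr, fun p => rfl⟩
    have h2 := (hT s _).1 (hf _ _ h1)
    have e3 : (f ∘ ((fun p => ⟨prN n (fun a => (y a : ℕ)) p, prN_lt (fun a => (y a).2) p⟩ :
        (rT σ M).Ar s → Fin (n * n)) ∘ ((cvT σ M).a s).symm)) ∘ (cvT σ M).a s =
        fun e => f (finProdFinEquiv (y e.1, y e.2)) := by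
      funext e
      simp only [comp_apply, Equiv.symm_apply_apply]
      congr 1
    have h3 : R s ((f ∘ ((fun p => ⟨prN n (fun a => (y a : ℕ)) p, prN_lt (fun a => (y a).2) p⟩ :
        (rT σ M).Ar s → Fin (n * n)) ∘ ((cvT σ M).a s).symm)) ∘ (cvT σ M).a s) := h2
    rw [e3] at h3
    exact h3

/-- correctness of the reduction -/
theorem pf_RE1 : Pool.Agent.H57.EQD.T_RE1 := by
  classical
  intro σ V X _ 𝔸 M c fr rv hs n 𝕏
  have h3 := hs.three
  constructor
  · rintro ⟨f, hf⟩
    -- the label of an element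
    let k : Fin n → ℕ := fun i => ((Finset.univ.filter (fun j : Fin n => f j = f i)).min'
      ⟨i, by simp⟩ : Fin n)
    have hk : ∀ i j, k i = k j ↔ f i = f j := by
      intro i j
      constructor
      · intro h
        have h1 : f ((Finset.univ.filter (fun j : Fin n => f j = f i)).min' ⟨i, by simp⟩) = f i :=
          (Finset.mem_filter.1 (Finset.min'_mem
            (Finset.univ.filter (fun j : Fin n => f j = f i)) _)).2
        have h2 : f ((Finset.univ.filter (fun l : Fin n => f l = f j)).min' ⟨j, by simp⟩) = f j :=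
          (Finset.mem_filter.1 (Finset.min'_mem
            (Finset.univ.filter (fun l : Fin n => f l = f j)) _)).2
        rw [← h1, ← h2]
        congr 1
        exact Fin.ext h
      · intro h
        simp only [k, h]
    refine ⟨fun i j => (c (f i) (f j)).map (fun t => ((t, t), decide (k i < k j))),
      fun s y hr => ?_⟩
    refine ⟨fun a => k (y a), fun a b => decide (a < b), ?_, ?_, ?_, ?_⟩
    · intro x y hxy
      rcases lt_trichotomy x y with h | h | h
      · simp [h, not_lt_of_gt h]
      · exact absurd h hxy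
      · simp [h, not_lt_of_gt h]
    · intro a b
      rw [Option.map_eq_none_iff, hs.col.none_iff, hk]
    · intro a b t ht
      obtain ⟨t', -, h2⟩ := Option.map_eq_some_iff.1 ht
      rw [← h2]
    · intro rk _
      refine ⟨fun a => f (y a), ?_, fun a b => (hk _ _).symm, fun a b t ht => ?_⟩
      · cases s with
        | none => trivial
        | some l => exact hf l y hr
      · obtain ⟨t', h1, h2⟩ := Option.map_eq_some_iff.1 ht
        rw [h1, ← h2]
        simp
  · rintro ⟨q, hq⟩
    -- equality is an equivalence relation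
    have tri : ∀ p : Fin M → Fin n, ∃ k : Fin M → ℕ, ∀ a b, q (p a) (p b) = none ↔ k a = k b := by
      intro p
      obtain ⟨k, T, -, h, -⟩ := hq none p trivial
      exact ⟨k, h⟩
    have hrefl : ∀ i, q i i = none := by
      intro i
      obtain ⟨k, hk⟩ := tri (fun _ => i)
      exact (hk ⟨0, by omega⟩ ⟨0, by omega⟩).2 rfl
    have htr : ∀ i j l, q i j = none → q j l = none → q i l = none := by
      intro i j l h1 h2
      obtain ⟨k, hk⟩ := tri (fun a => if a.1 = 0 then i else if a.1 = 1 then j else l)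
      have e1 := (hk ⟨0, by omega⟩ ⟨1, by omega⟩).1 (by simpa using h1)
      have e2 := (hk ⟨1, by omega⟩ ⟨2, by omega⟩).1 (by simpa using h2)
      have e3 := (hk ⟨0, by omega⟩ ⟨2, by omega⟩).2 (e1.trans e2)
      simpa using e3
    have hsy : ∀ i j, q i j = none → q j i = none := by
      intro i j h1
      obtain ⟨k, hk⟩ := tri (fun a => if a.1 = 0 then i else j)
      have e1 := (hk ⟨0, by omega⟩ ⟨1, by omega⟩).1 (by simpa using h1)
      have e2 := (hk ⟨1, by omega⟩ ⟨0, by omega⟩).2 e1.symm
      simpa using e2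
    -- the ranks
    let rk : Fin n → ℕ := fun i => ((Finset.univ.filter (fun j : Fin n => q i j = none)).min'
      ⟨i, by simp [hrefl]⟩ : Fin n)
    have hrk : ∀ i j, rk i = rk j ↔ q i j = none := by
      intro i j
      constructor
      · intro h
        have h1 : q i ((Finset.univ.filter (fun j : Fin n => q i j = none)).min'
          ⟨i, by simp [hrefl]⟩) = none := (Finset.mem_filter.1 (Finset.min'_mem
            (Finset.univ.filter (fun j : Fin n => q i j = none)) _)).2
        have h2 : q j ((Finset.univ.filter (fun l : Fin n => q j l = none)).min'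
          ⟨j, by simp [hrefl]⟩) = none := (Finset.mem_filter.1 (Finset.min'_mem
            (Finset.univ.filter (fun l : Fin n => q j l = none)) _)).2
        have h4 : ((Finset.univ.filter (fun j : Fin n => q i j = none)).min'
          ⟨i, by simp [hrefl]⟩) = ((Finset.univ.filter (fun l : Fin n => q j l = none)).min'
          ⟨j, by simp [hrefl]⟩) := Fin.ext h
        rw [← h4] at h2
        exact htr _ _ _ h1 (hsy _ _ h2)
      · intro h
        have h1 : (Finset.univ.filter (fun l : Fin n => q i l = none)) =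
            (Finset.univ.filter (fun l : Fin n => q j l = none)) := by
          ext l
          simp only [Finset.mem_filter, Finset.mem_univ, true_and]
          exact ⟨fun h' => htr _ _ _ (hsy _ _ h) h', fun h' => htr _ _ _ h h'⟩
        simp only [rk, h1]
    -- the tuples
    have key : ∀ (s : Option (Fin σ.m)) (y : Fin (arP σ M s) → Fin n), relP 𝕏 M s y →
        ∃ x : Fin (arP σ M s) → V, relP 𝔸 M s x ∧ ∀ a b, c (x a) (x b) =
          (q (y a) (y b)).map (fun t => if rk (y a) < rk (y b) then t.1.1 else t.1.2) := by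
      intro s y hr
      obtain ⟨k, T, -, h1, -, h2⟩ := hq s y hr
      obtain ⟨x, hx, hx1, hx2⟩ := h2 (fun a => rk (y a)) (fun a b => by rw [hrk, h1])
      refine ⟨x, hx, fun a b => ?_⟩
      rcases hqab : q (y a) (y b) with _ | t
      · rw [Option.map_none, hs.col.none_iff, hx1, ← h1]
        exact hqab
      · rw [Option.map_some]
        exact hx2 a b t hqab
    obtain ⟨γ, hγ⟩ := pf_REA σ V X 𝔸 M c fr rv hs (Fin n)
      (fun i j => (q i j).map (fun t => if rk i < rk j then t.1.1 else t.1.2)) (fun p => by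
        obtain ⟨x, -, hx⟩ := key none p trivial
        exact ⟨x, hx⟩)
    refine ⟨γ, fun l z hz => ?_⟩
    obtain ⟨x, hx1, hx2⟩ := key (some l) z hz
    refine hs.tyi l x (fun i => γ (z i)) hx1 (fun a b => ?_)
    rw [hγ]
    exact (hx2 a b).symm

theorem pf_RED : Pool.Agent.H57.EQD.T_RED := by
  intro σ V X _ 𝔸 M c fr rv hs
  refine manyOne (polyOn_red (σ := σ) (M := M))
    (Q := fun l => CSP (tpl 𝔸 M c) (unary l) = true) (fun p => Iff.rfl) (fun x => ?_)
  by_cases h : cV.tv (ph (σ.width + 1) x) []
  · obtain ⟨n, Ls, e1, rfl⟩ := code_of_cV h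
    obtain ⟨L', e2, e3, e4⟩ := red_code (M := M) (n := n) e1
    rw [csp_code 𝔸 e1, e3, csp_code (tpl 𝔸 M c) e2, pf_RE1 σ V X 𝔸 M c fr rv hs n (strOf σ n Ls)]
    exact hom_iff (FamP 𝔸 M c) e4
  · constructor
    · intro hx
      obtain ⟨n, Ls, h1, rfl⟩ := csp_true 𝔸 hx
      obtain ⟨M', hM, h0, -, -, h3, -⟩ := ph_vals (n := n) h1
      refine absurd ?_ h
      rw [hM]
      simp only [cV, tv_and, tv_le, tv_eq, Ex.val, h0, h3]
      exact ⟨le_rfl, trivial⟩
    · intro hx
      rw [red_bad h] at hx
      exact absurd hx (csp_nil _)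

end Pool.Agent.H50.EQD
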