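import Pool.Agent.H57.EQD.Targets
import Pool.Agent.H50.EQ.STR

/-!
# Structures with free amalgamation in a binary language: the coloured order
-/

set_option autoImplicit false

namespace Pool.Agent.H50.EQD

open Pool.Agent.H68.BP Pool.Agent.H58.SF Pool.Agent.H53.GC Pool.Agent.H53.NR
open Pool.Agent.H57.EQ (Uni TyInv)
open Pool.Agent.H57.EQD
open Pool.Agent.H18.SF (ty exists_aut_of_ty)
open Pool.Agent.H50.EQ (pr comp_pr)
open Function

/-- The relations of `𝔹` have arity `1` or `2`, and they hold for all constant tuples or for none. -/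
structure TB {τ : Sig} {B : Type} (𝔹 : Str τ B) : Prop where
  ar : ∀ l, 1 ≤ τ.ar l ∧ τ.ar l ≤ 2
  loops : ∀ (l : Fin τ.m) (x y : B), 𝔹 l (fun _ => x) → 𝔹 l (fun _ => y)

theorem tb_of_trans {τ : Sig} {B : Type} {𝔹 : Str τ B} (ar : ∀ l, 1 ≤ τ.ar l ∧ τ.ar l ≤ 2)
    (h : ∀ x y : B, ∃ g : B ≃ B, IsAut 𝔹 g ∧ g x = y) : TB 𝔹 := by
  refine ⟨ar, fun l x y hx => ?_⟩
  obtain ⟨g, hg, hxy⟩ := h x y
  have h1 := (hg l _).1 hx
  rw [hxy] at h1
  exact h1

/-- the colours: the types of the pairs of different elements -/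
abbrev DC {τ : Sig} {B : Type} (𝔹 : Str τ B) : Type :=
  {t : (Fin τ.m → Prop) × (Fin τ.m → Prop) // ∃ x y : B, x ≠ y ∧
    ∀ l, (t.1 l ↔ 𝔹 l (pr l x y)) ∧ (t.2 l ↔ 𝔹 l (pr l y x))}

/-- the colour of the reversed pair -/
def rvD {τ : Sig} {B : Type} (𝔹 : Str τ B) (t : DC 𝔹) : DC 𝔹 :=
  ⟨(t.1.2, t.1.1), by
    obtain ⟨x, y, h1, h2⟩ := t.2
    exact ⟨y, x, h1.symm, fun l => ⟨(h2 l).2, (h2 l).1⟩⟩⟩

open Classical in
/-- the colouring -/
noncomputable def dc {τ : Sig} {B : Type} (𝔹 : Str τ B) (x y : B) : Option (DC 𝔹) :=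
  if h : x = y then none
  else some ⟨(fun l => 𝔹 l (pr l x y), fun l => 𝔹 l (pr l y x)), x, y, h,
    fun _ => ⟨Iff.rfl, Iff.rfl⟩⟩

section

variable {τ σ : Sig} {B : Type} {𝔹 : Str τ B}

theorem dc_some {x y : B} {t : DC 𝔹} : dc 𝔹 x y = some t ↔
    x ≠ y ∧ ∀ l, (t.1.1 l ↔ 𝔹 l (pr l x y)) ∧ (t.1.2 l ↔ 𝔹 l (pr l y x)) := by
  unfold dc
  by_cases h : x = y
  · simp [h]
  · rw [dif_neg h, Option.some_inj]
    constructor
    · rintro rfl
      exact ⟨h, fun l => ⟨Iff.rfl, Iff.rfl⟩⟩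
    · rintro ⟨-, h1⟩
      apply Subtype.ext
      refine Prod.ext ?_ ?_
      · funext l
        exact propext (h1 l).1.symm
      · funext l
        exact propext (h1 l).2.symm

theorem dc_none {x y : B} : dc 𝔹 x y = none ↔ x = y := by
  unfold dc
  by_cases h : x = y
  · simp [h]
  · simp [h]

theorem dc_swap (x y : B) : dc 𝔹 y x = (dc 𝔹 x y).map (rvD 𝔹) := by
  by_cases h : x = y
  · rw [dc_none.2 h, dc_none.2 h.symm]
    rfl
  · obtain ⟨t, ht⟩ := Option.ne_none_iff_exists'.1 (fun h' => h (dc_none.1 h') : dc 𝔹 x y ≠ none)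
    rw [ht, Option.map_some]
    obtain ⟨h1, h2⟩ := dc_some.1 ht
    exact dc_some.2 ⟨h1.symm, fun l => ⟨(h2 l).2, (h2 l).1⟩⟩

theorem rvD_rvD (t : DC 𝔹) : rvD 𝔹 (rvD 𝔹 t) = t := rfl

theorem pr_inj {W : Type} {l : Fin τ.m} (h : τ.ar l = 2) {x y x' y' : W}
    (he : (pr l x y : Fin (τ.ar l) → W) = pr l x' y') : x = x' ∧ y = y' := by
  constructor
  · have h1 := congrFun he ⟨0, by omega⟩
    simpa [pr] using h1
  · have h1 := congrFun he ⟨1, by omega⟩
    simpa [pr] using h1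

theorem pr_const {W : Type} {l : Fin τ.m} (h : τ.ar l = 2) {x y w : W}
    (he : (pr l x y : Fin (τ.ar l) → W) = fun _ => w) : x = y := by
  have h1 := congrFun he ⟨0, by omega⟩
  have h2 := congrFun he ⟨1, by omega⟩
  simp only [pr, if_true] at h1
  simp [pr] at h2
  rw [h1, h2]

theorem pr_self {W : Type} (l : Fin τ.m) (w : W) :
    (pr l w w : Fin (τ.ar l) → W) = fun _ => w := by
  funext i
  simp [pr]

theorem pr_one {W : Type} {l : Fin τ.m} (h : τ.ar l = 1) (x y : W) :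
    (pr l x y : Fin (τ.ar l) → W) = fun _ => x := by
  funext i
  have := i.2
  simp only [pr]
  rw [if_pos (by omega)]

theorem cases_z {W : Type} {l : Fin τ.m} (har : 1 ≤ τ.ar l ∧ τ.ar l ≤ 2)
    (z : Fin (τ.ar l) → W) :
    (∃ w, z = fun _ => w) ∨ (τ.ar l = 2 ∧ ∃ u w, u ≠ w ∧ z = pr l u w) := by
  by_cases h : τ.ar l = 2
  · by_cases hz : z ⟨0, by omega⟩ = z ⟨1, by omega⟩
    · left
      refine ⟨z ⟨0, by omega⟩, ?_⟩
      funext i
      have hi := i.2
      rcases (by omega : i.1 = 0 ∨ i.1 = 1) with h1 | h1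
      · exact congrArg z (Fin.ext h1)
      · rw [hz]
        exact congrArg z (Fin.ext h1)
    · right
      refine ⟨h, _, _, hz, ?_⟩
      funext i
      have hi := i.2
      simp only [pr]
      rcases (by omega : i.1 = 0 ∨ i.1 = 1) with h1 | h1
      · rw [if_pos h1]
        exact congrArg z (Fin.ext h1)
      · rw [if_neg (by omega)]
        exact congrArg z (Fin.ext h1)
  · left
    refine ⟨z ⟨0, by omega⟩, ?_⟩
    funext i
    have hi := i.2
    exact congrArg z (Fin.ext (by simp only; omega))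

/-- the colour of a pair -/
def dd {n : ℕ} (d : Fin n → Fin n → DC 𝔹) (i j : Fin n) : DC 𝔹 :=
  if i < j then d i j else rvD 𝔹 (d j i)

theorem dd_swap {n : ℕ} (d : Fin n → Fin n → DC 𝔹) {i j : Fin n} (h : i ≠ j) :
    dd d j i = rvD 𝔹 (dd d i j) := by
  unfold dd
  rcases lt_or_gt_of_ne h with h1 | h1
  · rw [if_pos h1, if_neg (not_lt_of_gt h1)]
  · rw [if_neg (not_lt_of_gt h1), if_pos h1, rvD_rvD]

/-- the structure given by the colours -/
def SX (b : B) {n : ℕ} (d : Fin n → Fin n → DC 𝔹) : Str τ (Fin n) := fun l z =>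
  ((∃ w, z = fun _ => w) ∧ 𝔹 l (fun _ => b)) ∨
    (τ.ar l = 2 ∧ ∃ u w, u ≠ w ∧ z = pr l u w ∧ (dd d u w).1.1 l)

theorem SX_const (h : TB 𝔹) (b : B) {n : ℕ} (d : Fin n → Fin n → DC 𝔹) (l : Fin τ.m) (w : Fin n)
    (x : B) : SX b d l (fun _ => w) ↔ 𝔹 l (fun _ => x) := by
  constructor
  · rintro (⟨-, h1⟩ | ⟨h2, u, w', h3, h4, -⟩)
    · exact h.loops l _ _ h1
    · exact absurd (pr_const h2 h4.symm) h3
  · intro h1
    exact Or.inl ⟨⟨w, rfl⟩, h.loops l _ _ h1⟩

theorem SX_pair (b : B) {n : ℕ} (d : Fin n → Fin n → DC 𝔹) {l : Fin τ.m}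
    (h2 : τ.ar l = 2) {u w : Fin n} (huw : u ≠ w) :
    SX b d l (pr l u w) ↔ (dd d u w).1.1 l := by
  constructor
  · rintro (⟨⟨w', h1⟩, -⟩ | ⟨-, u', w', h3, h4, h5⟩)
    · exact absurd (pr_const h2 h1) huw
    · obtain ⟨rfl, rfl⟩ := pr_inj h2 h4
      exact h5
  · intro h1
    exact Or.inr ⟨h2, u, w, huw, rfl, h1⟩

end

/-- the hypotheses of the theorem for coloured orders -/
theorem col_dc {τ : Sig} {B : Type} {𝔹 : Str τ B} : Col (dc 𝔹) (rvD 𝔹) := by
  refine ⟨fun x y => dc_none, dc_swap, fun t => ?_⟩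
  obtain ⟨x, y, h1, h2⟩ := t.2
  exact ⟨x, y, dc_some.2 ⟨h1, h2⟩⟩

/-- the free colour -/
def IsFr {τ : Sig} {B : Type} (𝔹 : Str τ B) (fr : DC 𝔹) : Prop :=
  rvD 𝔹 fr = fr ∧ ∀ l, τ.ar l = 2 → ¬ fr.1.1 l

theorem exists_fr {τ : Sig} {B : Type} {𝔹 : Str τ B} {M : ℕ} (h : TB 𝔹) (b : B)
    (hF : FreelyBounded 𝔹 M) : ∃ fr : DC 𝔹, IsFr 𝔹 fr := by
  obtain ⟨f, hf1, hf2⟩ := hF 2 (fun l z => (∃ w, z = fun _ => w) ∧ 𝔹 l (fun _ => b)) (by
    intro m s _ hs hirr
    have hm : m ≤ 1 := by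
      by_contra hm
      obtain ⟨l, z, ⟨⟨w, hw⟩, -⟩, ⟨i, hi⟩, ⟨j, hj⟩⟩ := hirr ⟨0, by omega⟩ ⟨1, by omega⟩ (by simp)
      have h1 := congrFun hw i
      have h2 := congrFun hw j
      rw [hi] at h1
      rw [hj] at h2
      have h3 := hs (h1.trans h2.symm)
      simp at h3
    refine ⟨fun _ => b, fun i j _ => Fin.ext (by omega), fun l z => ?_⟩
    constructor
    · rintro ⟨-, h2⟩
      exact h2
    · intro h2
      refine ⟨?_, h2⟩
      have hl := (h.ar l).1
      refine ⟨s (z ⟨0, by omega⟩), ?_⟩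
      funext i
      exact congrArg s (Fin.ext (by have := (z i).2; have := (z ⟨0, by omega⟩).2; omega)))
  have hne : f 0 ≠ f 1 := fun he => absurd (hf1 he) (by decide)
  have key : ∀ l (i j : Fin 2), i ≠ j → τ.ar l = 2 → ¬ 𝔹 l (pr l (f i) (f j)) := by
    intro l i j hij h2 h3
    have h4 := hf2 l (pr l i j)
    rw [comp_pr] at h4
    obtain ⟨⟨w, hw⟩, -⟩ := h4.2 h3
    exact hij (pr_const h2 hw)
  have key1 : ∀ l, 𝔹 l (pr l (f 0) (f 1)) ↔ 𝔹 l (pr l (f 1) (f 0)) := by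
    intro l
    by_cases h2 : τ.ar l = 2
    · exact iff_of_false (key l 0 1 (by decide) h2) (key l 1 0 (by decide) h2)
    · have h3 : τ.ar l = 1 := by have := h.ar l; omega
      rw [pr_one h3, pr_one h3]
      exact ⟨h.loops l _ _, h.loops l _ _⟩
  refine ⟨⟨(fun l => 𝔹 l (pr l (f 0) (f 1)), fun l => 𝔹 l (pr l (f 1) (f 0))), f 0, f 1, hne,
    fun l => ⟨Iff.rfl, Iff.rfl⟩⟩, ?_, fun l h2 => key l 0 1 (by decide) h2⟩
  apply Subtype.ext
  refine Prod.ext ?_ ?_
  · funext l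
    exact propext (key1 l).symm
  · funext l
    exact propext (key1 l)

theorem uni_dc (hFB2 : T_FB2) {τ : Sig} {B : Type} {𝔹 : Str τ B} {M : ℕ} (en : B → ℕ)
    (hen : Injective en) (h : TB 𝔹) (b : B) (hH : Homogeneous 𝔹) (hF : FreelyBounded 𝔹 M)
    (fr : DC 𝔹) (hfr : IsFr 𝔹 fr) : @Uni B (DC 𝔹) (LinearOrder.lift' en hen) (dc 𝔹) fr M := by
  let _ : LinearOrder B := LinearOrder.lift' en hen
  intro n d hd
  have hemb : Embeds (SX b d) 𝔹 := by
    refine hF n (SX b d) fun m s hm hs hirr => ?_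
    have hmono : StrictMono (s ∘ Tuple.sort s) :=
      (Tuple.monotone_sort s).strictMono_of_injective (hs.comp (Tuple.sort s).injective)
    have hne : ∀ a b, a ≠ b → dd d (s a) (s b) ≠ fr := by
      intro a b hab heq
      have heq' : dd d (s b) (s a) = fr := by
        rw [dd_swap d (fun h => hab (hs h)), heq, hfr.1]
      obtain ⟨l, z, hz, ⟨p, hp⟩, ⟨q, hq⟩⟩ := hirr a b hab
      rcases hz with ⟨⟨w, hw⟩, -⟩ | ⟨h2, u, w, huw, hz1, hz2⟩
      · have h1 := congrFun hw p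
        have h2 := congrFun hw q
        rw [hp] at h1
        rw [hq] at h2
        exact hab (hs (h1.trans h2.symm))
      · have e1 : ∀ i : Fin (τ.ar l), s (z i) = u ∨ s (z i) = w := by
          intro i
          have h3 := congrFun hz1 i
          rw [h3]
          simp only [pr]
          split_ifs
          · exact Or.inl rfl
          · exact Or.inr rfl
        have e2 := e1 p
        have e3 := e1 q
        rw [hp] at e2
        rw [hq] at e3
        have e4 : dd d u w = fr := by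
          rcases e2 with e2 | e2 <;> rcases e3 with e3 | e3
          · exact absurd (hs (e2.trans e3.symm)) hab
          · rw [← e2, ← e3, heq]
          · rw [← e2, ← e3, heq']
          · exact absurd (hs (e2.trans e3.symm)) hab
        rw [e4] at hz2
        exact hfr.2 l h2 hz2
    obtain ⟨v, hv⟩ := hd m (s ∘ Tuple.sort s) hm hmono (by
      intro i j hij heq
      refine hne (Tuple.sort s i) (Tuple.sort s j) (fun h => hij.ne ((Tuple.sort s).injective h)) ?_
      have h3 := hmono hij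
      simp only [comp_apply] at h3 heq
      unfold dd
      rw [if_pos h3]
      exact heq)
    have hv2 : ∀ a b, a ≠ b → dc 𝔹 (v ((Tuple.sort s).symm a)) (v ((Tuple.sort s).symm b)) =
        some (dd d (s a) (s b)) := by
      intro a b hab
      have hne' : (Tuple.sort s).symm a ≠ (Tuple.sort s).symm b := fun h =>
        hab ((Tuple.sort s).symm.injective h)
      rcases lt_or_gt_of_ne hne' with h | h
      · rw [hv _ _ h]
        have h3 := hmono h
        simp only [comp_apply, Equiv.apply_symm_apply] at h3 ⊢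
        unfold dd
        rw [if_pos h3]
      · rw [dc_swap, hv _ _ h]
        have h3 := hmono h
        simp only [comp_apply, Equiv.apply_symm_apply] at h3 ⊢
        unfold dd
        rw [if_neg (not_lt_of_gt h3)]
        rfl
    refine ⟨fun a => v ((Tuple.sort s).symm a), ?_, fun l z => ?_⟩
    · intro a b hab
      by_contra hne'
      have h3 := hv2 a b hne'
      have h4 : dc 𝔹 (v ((Tuple.sort s).symm a)) (v ((Tuple.sort s).symm b)) = none :=
        dc_none.2 hab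
      rw [h4] at h3
      exact Option.some_ne_none _ h3.symm
    · rcases cases_z (h.ar l) z with ⟨w, rfl⟩ | ⟨h2, u, w, huw, rfl⟩
      · exact SX_const h b d l (s w) _
      · have e1 : pull (SX b d) s l (pr l u w) ↔ SX b d l (pr l (s u) (s w)) := by
          rw [← comp_pr]
          exact Iff.rfl
        rw [e1, SX_pair b d h2 (fun h' => huw (hs h')), comp_pr (fun a => v ((Tuple.sort s).symm a))]
        exact ((dc_some.1 (hv2 u w huw)).2 l).1
  obtain ⟨f, hf, hf'⟩ := hFB2 τ B 𝔹 M en hen hH hF n (SX b d) hemb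
  refine ⟨f, hf', fun i j hij => dc_some.2 ⟨fun h => hij.ne (hf.1 h), fun l => ?_⟩⟩
  have hdd : dd d i j = d i j := by
    unfold dd
    rw [if_pos hij]
  by_cases h2 : τ.ar l = 2
  · have e1 := hf.2 l (pr l i j)
    have e2 := hf.2 l (pr l j i)
    rw [comp_pr, SX_pair b d h2 hij.ne, hdd] at e1
    rw [comp_pr, SX_pair b d h2 hij.ne', dd_swap d hij.ne, hdd] at e2
    exact ⟨e1, e2⟩
  · have h3 : τ.ar l = 1 := by have := h.ar l; omega
    obtain ⟨x, y, -, hxy⟩ := (d i j).2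
    have h4 := hxy l
    rw [pr_one h3, pr_one h3] at h4 ⊢
    exact ⟨h4.1.trans ⟨h.loops l _ _, h.loops l _ _⟩, h4.2.trans ⟨h.loops l _ _, h.loops l _ _⟩⟩

theorem tyi_dc {τ σ : Sig} {B : Type} {𝔹 : Str τ B} {𝔸 : Str σ B} (h : TB 𝔹)
    (hH : Homogeneous 𝔹) (hS : ∀ g : B ≃ B, IsAut 𝔹 g → IsAut 𝔸 g) : TyInv 𝔸 (dc 𝔹) := by
  intro l x y hx hxy
  have key : ty 𝔹 y = ty 𝔹 x := by
    refine Prod.ext ?_ ?_
    · funext i j
      change (y i = y j) = (x i = x j)
      rw [← dc_none (𝔹 := 𝔹), ← dc_none (𝔹 := 𝔹), hxy]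
    · funext l' t
      change 𝔹 l' (fun k => y (t k)) = 𝔹 l' (fun k => x (t k))
      apply propext
      rcases cases_z (h.ar l') t with ⟨w, rfl⟩ | ⟨h2, u, w, huw, rfl⟩
      · exact ⟨h.loops l' _ _, h.loops l' _ _⟩
      · rw [comp_pr y, comp_pr x]
        have h3 := hxy u w
        by_cases hx' : x u = x w
        · rw [dc_none.2 hx'] at h3
          have h4 := dc_none.1 h3
          rw [hx', h4, pr_self, pr_self]
          exact ⟨h.loops l' _ _, h.loops l' _ _⟩
        · obtain ⟨t', ht'⟩ := Option.ne_none_iff_exists'.1 (fun h' => hx' (dc_none.1 h') :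
            dc 𝔹 (x u) (x w) ≠ none)
          rw [ht'] at h3
          have h4 := ((dc_some.1 ht').2 l').1
          have h5 := ((dc_some.1 h3).2 l').1
          exact h5.symm.trans h4
  obtain ⟨g, hg, hg'⟩ := exists_aut_of_ty hH y x key
  have h3 := (hS g hg l x).1 hx
  have e : (fun i => g (x i)) = y := funext hg'
  rw [e] at h3
  exact h3

end Pool.Agent.H50.EQD
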