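import Pool.Agent.H57.EQD.Asm
import Pool.Agent.H50.EQ.CST
import Pool.Agent.H50.EQD.RED
import Pool.Agent.H50.EQD.STR

/-!
# Structures with free amalgamation in a binary language: assembly
-/

set_option autoImplicit false

namespace Pool.Agent.H50.EQD

open Pool.Agent.H68.BP Pool.Agent.H58.SF Pool.Agent.H53.GC Pool.Agent.H53.NR
open Pool.Agent.H57.EQ (ConstHom fb_mono T_CON T_OLG)
open Pool.Agent.H57.EQD
open Function

/-- The theorem for the first-order reducts of structures with free amalgamation in a finite binary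
language. -/
theorem asm_final (hFB1 : T_FB1) (hFB2 : T_FB2) (hOLG : T_OLG) (hCON : T_CON)
    (hmain : ∀ (σ : Sig) (V X : Type) [LinearOrder V] (𝔸 : Str σ V) (M : ℕ)
      (c : V → V → Option X) (fr : X) (rv : X → X), Stp 𝔸 M c fr rv → Oligo 𝔸 →
      ¬ PPConstructsK3 𝔸 → ¬ ConstHom 𝔸 → ¬ PPConstructsK3 (tpl 𝔸 M c))
    (τ σ : Sig) (B : Type) [Countable B] [Nonempty B] (𝔹 : Str τ B) (𝔸 : Str σ B)
    (hE : TB 𝔹) (hH : Homogeneous 𝔹) (hF : FinitelyBounded 𝔹) (hA : FreeAmalgamation 𝔹)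
    (hS : ∀ g : B ≃ B, IsAut 𝔹 g → IsAut 𝔸 g) :
    PPConstructsK3 𝔸 ∨ ∃ (σ' : Sig) (Y : Type) (_ : Finite Y) (𝕋 : Str σ' Y),
      ¬ PPConstructsK3 𝕋 ∧ N793a5b8e.ManyOneReducible (CSP 𝔸) (CSP 𝕋) := by
  obtain ⟨M₀, -, hFB₀⟩ := hFB1 τ B 𝔹 hF hA
  let M := max M₀ 3
  have hFB : FreelyBounded 𝔹 M := fb_mono hFB₀ (le_max_left _ _)
  have b : B := Classical.arbitrary B
  obtain ⟨fr, hfr⟩ := exists_fr hE b hFB
  obtain ⟨en, hen⟩ := exists_injective_nat B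
  let _ : LinearOrder B := LinearOrder.lift' en hen
  have hX : Finite (DC 𝔹) := inferInstance
  have hs : Stp 𝔸 M (dc 𝔹) fr (rvD 𝔹) :=
    ⟨hX, inferInstance, le_max_right _ _, col_dc, hfr.1,
      uni_dc hFB2 en hen hE b hH hFB fr hfr, tyi_dc hE hH hS⟩
  by_cases hK : PPConstructsK3 𝔸
  · exact Or.inl hK
  by_cases hC : ConstHom 𝔸
  · obtain ⟨h1, h2⟩ := hCON σ B 𝔸 inferInstance hC
    exact Or.inr ⟨_, Unit, inferInstance, _, h1, h2⟩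
  · exact Or.inr ⟨_, Ec (DC 𝔹), inferInstance, _,
      hmain σ B (DC 𝔹) 𝔸 M (dc 𝔹) fr (rvD 𝔹) hs (hOLG τ σ B 𝔹 𝔸 inferInstance hH hS) hK hC,
      pf_RED σ B (DC 𝔹) 𝔸 M (dc 𝔹) fr (rvD 𝔹) hs⟩

end Pool.Agent.H50.EQD
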